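import Pool.Agent.Lib.MP_6b0fe3_coR.FinalAll
import Pool.Agent.Lib.MP_6b0fe3_coR.Stmt

/-!
# Hexagons of order `(q,q)` containing `H(q,1)` to which all elations of the plane extend

Let `K` be a finite field with `q` elements and let `Γ` be a generalized hexagon of order `(q,q)`
that contains `H(q,1)`, the flags of `PG(2,q)`. If every elation of the plane is induced by an
automorphism of `Γ`, then `Γ` is the dual of the split Cayley hexagon `H(q)`.
-/

namespace Pool.Agent.Results.MP_6b0fe3_co.ElationsExtend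

open Pool.Agent.Lib.MP_6b0fe3_coR Matrix

theorem result {K : Type*} [Field K] [Fintype K] [DecidableEq K]
    {Pt Ln : Type*} {I : Pt → Ln → Prop}
    (hI : IsGenHexagon (Fintype.card K) (Fintype.card K) I) (a : Flag K → Pt)
    (b : Plane K ⊕ Plane K → Ln) (hab : IsSubHq1 I a b)
    (hel : ∀ u m : Fin 3 → K, u ⬝ᵥ m = 0 → ∃ (g : Equiv.Perm Pt) (h : Equiv.Perm Ln),
      IsAutomorphism I g h ∧ ∀ f f' : Flag K, ElationMaps u m f f' → g (a f) = a f') :
    IsDualHq K I := by
  refine main_all hI a b hab.injPt hab.injLn hab.inc fun u m hum => ?_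
  obtain ⟨g, h, hg, hf⟩ := hel u m hum
  refine ⟨(g, h), hg, fun f f' hff => hf f f' ?_⟩
  obtain ⟨v, k, hv, hk, hv', hk', e1, e2, e3, e4⟩ := hff
  exact ⟨v, k, hv, hk, hv', hk', Prod.ext e1 e2, Prod.ext e3 e4⟩

end Pool.Agent.Results.MP_6b0fe3_co.ElationsExtend
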