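import Pool.Agent.Lib.MP_6b0fe3_coP.MainC
import Pool.Agent.Lib.MP_6b0fe3_coR.Stmt

/-!
# Hexagons of order `(q,q)` containing `H(q,1)` with distance-3 regular pairs

Let `K` be a finite field with `q` elements, `q` odd, and let `Γ` be a generalized hexagon of order
`(q,q)` that contains `H(q,1)`, the flags of `PG(2,q)`. If for every non-incident point-line pair
`(P, L)` of the plane the pair of opposite lines `[P]`, `[L]` of `Γ` is distance-3 regular, then `Γ`
is the dual of the split Cayley hexagon `H(q)`.
-/

namespace Pool.Agent.Results.MP_6b0fe3_co.RegularPairs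

open Pool.Agent.Lib.MP_6b0fe3_coR

theorem result {K : Type*} [Field K] [Fintype K] [DecidableEq K] (hodd : Odd (Fintype.card K))
    {Pt Ln : Type*} {I : Pt → Ln → Prop}
    (hI : IsGenHexagon (Fintype.card K) (Fintype.card K) I) (a : Flag K → Pt)
    (b : Plane K ⊕ Plane K → Ln) (hab : IsSubHq1 I a b)
    (hreg : ∀ P L : Plane K, ¬ OnLine P L →
      Distance3Regular I (b (Sum.inl P)) (b (Sum.inr L))) :
    IsDualHq K I :=
  Pool.Agent.Lib.MP_6b0fe3_coP.mainQ hodd hI a b hab.injPt hab.injLn hab.inc hreg

end Pool.Agent.Results.MP_6b0fe3_co.RegularPairs
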